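import Pool.Agent.J4H80.PV.ValX
import Pool.Agent.J4H80.IG.Bnd2

set_option autoImplicit false

/-!
# Linear patterns of the partition function in a class modulo `4 ^ k`: the polynomial over the tower
-/

namespace Pool.Agent.J4H80.PV

open PowerSeries Pool.Agent.TH693.PP Pool.Agent.H397R2.PP Pool.Agent.TH693.QQ Pool.Agent.J4H80.IG

theorem PL.mono {d w d' w' : ℕ} {F : Polynomial L} (h : PL d w F) (hd : d ≤ d') (hw : w ≤ w') :
    PL d' w' F := ⟨h.1.trans hd, fun i => (h.2 i).mono hw⟩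

theorem PL.zero (d w : ℕ) : PL d w 0 := by
  constructor
  · rw [Polynomial.natDegree_zero]; exact Nat.zero_le _
  · intro i
    rw [Polynomial.coeff_zero]
    exact Wt.zero _

theorem PL.add {d w : ℕ} {F G : Polynomial L} (hF : PL d w F) (hG : PL d w G) : PL d w (F + G) := by
  constructor
  · exact (Polynomial.natDegree_add_le _ _).trans (max_le hF.1 hG.1)
  · intro i
    rw [Polynomial.coeff_add]
    exact (hF.2 i).add (hG.2 i)

theorem PL.sum {ι : Type*} (I : Finset ι) {d w : ℕ} (f : ι → Polynomial L) (h : ∀ i ∈ I, PL d w (f i)) :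
    PL d w (∑ i ∈ I, f i) := by
  classical
  induction I using Finset.induction_on with
  | empty => rw [Finset.sum_empty]; exact PL.zero _ _
  | insert i I hi ih =>
    rw [Finset.sum_insert hi]
    exact (h i (Finset.mem_insert_self _ _)).add (ih fun j hj => h j (Finset.mem_insert_of_mem hj))

theorem PL.monomial {d w : ℕ} {x : L} (hx : Wt w x) : PL d w (Polynomial.monomial d x) := by
  constructor
  · exact Polynomial.natDegree_monomial_le _
  · intro i
    rw [Polynomial.coeff_monomial]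
    split_ifs
    · exact hx
    · exact Wt.zero _

theorem PL.pow {d w : ℕ} {F : Polynomial L} (h : PL d w F) (n : ℕ) : PL (n * d) (n * w) (F ^ n) := by
  induction n with
  | zero => rw [pow_zero, zero_mul, zero_mul]; exact PL.one
  | succ n ih => rw [pow_succ, Nat.succ_mul, Nat.succ_mul]; exact ih.mul h

theorem PL.X : PL 1 0 (Polynomial.X : Polynomial L) := by
  rw [← Polynomial.monomial_one_one_eq_X]
  exact PL.monomial Wt.one

theorem Wt.zmod (a : ZMod 2) (φ : ZMod 2 →+* L) : Wt 0 (φ a) := by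
  fin_cases a
  · change Wt 0 (φ 0)
    rw [map_zero]; exact Wt.zero _
  · change Wt 0 (φ 1)
    rw [map_one]; exact Wt.one

theorem PL.zmod (Q : Polynomial (ZMod 2)) (φ : ZMod 2 →+* L) : PL Q.natDegree 0 (Q.map φ) := by
  constructor
  · exact Polynomial.natDegree_map_le
  · intro i
    rw [Polynomial.coeff_map]
    exact Wt.zmod _ _

variable (k q ρ : ℕ) (I : Finset ℕ) (Q : Polynomial (ZMod 2))

/-- the embedding of `F_2` in the tower -/
noncomputable def jV (n : ℕ) : ZMod 2 →+* V n := (algebraMap K (V n)).comp (algebraMap (ZMod 2) K)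

/-- `Db` in the tower -/
noncomputable def dV (n : ℕ) : V n := algebraMap K (V n) RatFunc.X

theorem dV_apply (n : ℕ) (t : ℤ) : et n t (dV n) = dL := by
  rw [et_apply]
  unfold dV
  rw [← io'_X]
  rfl

/-- the linear combination of the components -/
noncomputable def Uf : Polynomial (V (2 * k + 2)) :=
  ∑ i ∈ I, Polynomial.monomial (8 * (q - i)) ⟨u k ((8 * (ρ + i) + ex k : ℕ) : ℤ), u_mem _ _⟩

/-- the polynomial with a zero of high order -/
noncomputable def ff : Polynomial (V (2 * k + 2)) :=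
  Polynomial.X * ((1 + Polynomial.X ^ (8 * 4 ^ k)) * Uf k q ρ I) ^ 3 +
    Polynomial.C (dV (2 * k + 2) ^ 4 ^ k) * ((Polynomial.expand (ZMod 2) 8 Q).map (jV (2 * k + 2))) ^ 3

/-- the values of `Uf` -/
noncomputable def Ut (t : ℤ) : Polynomial L :=
  ∑ i ∈ I, Polynomial.monomial (8 * (q - i)) (u k ((8 * (ρ + i) + ex k : ℕ) : ℤ) t)

theorem Uf_map (t : ℤ) : (Uf k q ρ I).map (et (2 * k + 2) t) = Ut k q ρ I t := by
  unfold Uf Ut
  rw [Polynomial.map_sum]
  refine Finset.sum_congr rfl fun i _ => ?_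
  rw [Polynomial.map_monomial, et_apply]

theorem ff_map (t : ℤ) : (ff k q ρ I Q).map (et (2 * k + 2) t) =
    Polynomial.X * ((1 + Polynomial.X ^ (8 * 4 ^ k)) * Ut k q ρ I t) ^ 3 +
    Polynomial.C (dL ^ 4 ^ k) * ((Polynomial.expand (ZMod 2) 8 Q).map
      ((et (2 * k + 2) t).comp (jV (2 * k + 2)))) ^ 3 := by
  unfold ff
  rw [Polynomial.map_add, Polynomial.map_mul, Polynomial.map_mul, Polynomial.map_pow,
    Polynomial.map_pow, Polynomial.map_mul, Polynomial.map_add, Polynomial.map_pow,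
    Polynomial.map_one, Polynomial.map_X, Uf_map, Polynomial.map_C, map_pow, dV_apply,
    Polynomial.map_map]

theorem Ut_PL (t : ℤ) : PL (8 * q) (ww k) (Ut k q ρ I t) := by
  unfold Ut
  refine PL.sum _ _ fun i hi => ?_
  exact (PL.monomial (u_wt _ _ _)).mono (by omega) le_rfl

theorem ff_PL {T : ℕ} (hQ : Q.natDegree ≤ T) (hT : q + 4 ^ k ≤ T) (t : ℤ) :
    PL (24 * T + 1) (6 * (4 ^ k) ^ 2) ((ff k q ρ I Q).map (et (2 * k + 2) t)) := by
  rw [ff_map]
  have h9 := nine_ww k
  have e1 : (4 : ℕ) ^ (2 * k + 2) = 16 * (4 ^ k) ^ 2 := by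
    rw [pow_add, mul_comm 2 k, pow_mul]; ring
  rw [e1] at h9
  have hp : 0 < 4 ^ k := by positivity
  have hp2 : 4 ^ k ≤ (4 ^ k) ^ 2 := by
    rw [pow_two]
    exact Nat.le_mul_of_pos_left _ hp
  refine PL.add ?_ ?_
  · have h1 : PL (8 * 4 ^ k) 0 (1 + Polynomial.X ^ (8 * 4 ^ k) : Polynomial L) := by
      refine PL.add (PL.one.mono (Nat.zero_le _) le_rfl) ?_
      have := PL.X.pow (8 * 4 ^ k)
      rwa [mul_one, mul_zero] at this
    have h2 := PL.X.mul ((h1.mul (Ut_PL k q ρ I t)).pow 3)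
    refine h2.mono (by omega) ?_
    omega
  · have h3 : PL 0 (4 ^ k) (Polynomial.C (dL ^ 4 ^ k)) := by
      rw [← Polynomial.monomial_zero_left]
      apply PL.monomial
      have := Wt.dLw.pow (4 ^ k)
      rwa [mul_one] at this
    have h4 := PL.zmod (Polynomial.expand (ZMod 2) 8 Q) ((et (2 * k + 2) t).comp (jV (2 * k + 2)))
    rw [Polynomial.natDegree_expand] at h4
    refine (h3.mul (h4.pow 3)).mono ?_ ?_
    · omega
    · omega

theorem Ut_ne (hI : ∀ i ∈ I, i < q) (hne : I.Nonempty) : Ut k q ρ I 0 ≠ 0 := by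
  obtain ⟨i0, hi0⟩ := hne
  intro h
  have h1 := congrArg (fun F => Polynomial.coeff F (8 * (q - i0))) h
  simp only [Polynomial.coeff_zero] at h1
  unfold Ut at h1
  rw [Polynomial.finsetSum_coeff, Finset.sum_eq_single i0] at h1
  · rw [Polynomial.coeff_monomial, if_pos rfl] at h1
    unfold u at h1
    rw [map_eq_zero_iff _ inj] at h1
    have h2 : U k ((8 * (ρ + i0) + ex k : ℕ) : ℤ) 0 = Cc k (ρ + i0) := by
      rw [← Cc_eq]
      unfold U
      congr 1
      ring
    rw [h2, Cc_congr k (r' := (ρ + i0) % 4 ^ k) (by rw [four_two, Nat.mod_mod])] at h1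
    exact Cc_ne k _ (Nat.mod_lt _ (by positivity)) h1
  · intro i hi hne
    rw [Polynomial.coeff_monomial, if_neg]
    have := hI i hi
    have := hI i0 hi0
    omega
  · intro h2
    exact absurd hi0 h2

theorem ff_ne (hI : ∀ i ∈ I, i < q) (hne : I.Nonempty) : ff k q ρ I Q ≠ 0 := by
  intro h
  have h1 : (ff k q ρ I Q).map (et (2 * k + 2) 0) = 0 := by rw [h, Polynomial.map_zero]
  rw [ff_map] at h1
  set F := Ut k q ρ I 0 with hF
  have hF0 : F ≠ 0 := Ut_ne k q ρ I hI hne
  set G := (Polynomial.expand (ZMod 2) 8 Q).map ((et (2 * k + 2) 0).comp (jV (2 * k + 2))) with hG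
  have h2L : (2 : Polynomial L) = 0 := by
    have h3 := congrArg (algebraMap S L) two_zero
    rw [map_ofNat, map_zero] at h3
    have h4 := congrArg (Polynomial.C : L →+* Polynomial L) h3
    rwa [map_ofNat, map_zero] at h4
  have h2 : Polynomial.X * ((1 + Polynomial.X ^ (8 * 4 ^ k)) * F) ^ 3 = Polynomial.C (dL ^ 4 ^ k) * G ^ 3 := by
    linear_combination h1 - Polynomial.C (dL ^ 4 ^ k) * G ^ 3 * h2L
  have hp : 8 * 4 ^ k ≠ 0 := by positivity
  have h1X : (1 + Polynomial.X ^ (8 * 4 ^ k) : Polynomial L) ≠ 0 := by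
    rw [add_comm]
    exact (Polynomial.monic_X_pow_add_C (1 : L) hp).ne_zero
  have hA : (1 + Polynomial.X ^ (8 * 4 ^ k)) * F ≠ 0 := mul_ne_zero h1X hF0
  have hL : Polynomial.X * ((1 + Polynomial.X ^ (8 * 4 ^ k)) * F) ^ 3 ≠ 0 :=
    mul_ne_zero Polynomial.X_ne_zero (pow_ne_zero 3 hA)
  have hG0 : G ≠ 0 := by
    rintro hG0
    rw [hG0] at h2
    apply hL
    rw [h2]
    ring
  have hd : (dL : L) ^ 4 ^ k ≠ 0 := pow_ne_zero _ dL_ne
  have h3 := congrArg Polynomial.natDegree h2
  rw [Polynomial.natDegree_mul Polynomial.X_ne_zero (pow_ne_zero 3 hA), Polynomial.natDegree_X,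
    Polynomial.natDegree_pow, Polynomial.natDegree_C_mul hd, Polynomial.natDegree_pow] at h3
  omega

/-- the power series belonging to `ff` -/
noncomputable def pf (t : ℤ) : S :=
  X * ((1 + X ^ (8 * 4 ^ k)) * ∑ i ∈ I, X ^ (8 * (q - i)) * U k ((8 * (ρ + i) + ex k : ℕ) : ℤ) t) ^ 3 +
    Db ^ 4 ^ k * (Polynomial.aeval (X : S) (Polynomial.expand (ZMod 2) 8 Q)) ^ 3

theorem ff_eval (t : ℤ) : Polynomial.eval (algebraMap S L X) ((ff k q ρ I Q).map (et (2 * k + 2) t)) =
    algebraMap S L (pf k q ρ I Q t) := by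
  rw [ff_map]
  unfold pf
  have h1 : Polynomial.eval (algebraMap S L X) (Ut k q ρ I t) = algebraMap S L
      (∑ i ∈ I, X ^ (8 * (q - i)) * U k ((8 * (ρ + i) + ex k : ℕ) : ℤ) t) := by
    unfold Ut
    rw [Polynomial.eval_finsetSum, map_sum]
    refine Finset.sum_congr rfl fun i _ => ?_
    rw [Polynomial.eval_monomial, map_mul, map_pow, mul_comm]
    rfl
  have h2 : Polynomial.eval (algebraMap S L X) ((Polynomial.expand (ZMod 2) 8 Q).map
      ((et (2 * k + 2) t).comp (jV (2 * k + 2)))) =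
      algebraMap S L (Polynomial.aeval (X : S) (Polynomial.expand (ZMod 2) 8 Q)) := by
    rw [Polynomial.eval_map, Polynomial.aeval_def, Polynomial.hom_eval₂]
    congr 1
    exact RingHom.ext_zmod _ _
  rw [Polynomial.eval_add, Polynomial.eval_mul, Polynomial.eval_mul, Polynomial.eval_pow,
    Polynomial.eval_pow, Polynomial.eval_mul, Polynomial.eval_add, Polynomial.eval_pow,
    Polynomial.eval_one, Polynomial.eval_X, Polynomial.eval_C, h1, h2]
  rw [map_add, map_mul, map_mul, map_pow, map_pow, map_mul, map_add, map_pow, map_one, map_pow]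
  rfl

/-- the order of `pf` at `t = 0` -/
theorem pf_bound {T N : ℕ} (hI : ∀ i ∈ I, i < q) (hne : I.Nonempty) (hQ : Q.natDegree ≤ T)
    (hT : q + 4 ^ k ≤ T) (hN : (X : S) ^ N ∣ pf k q ρ I Q 0) :
    N ≤ 16 * (4 ^ k * (24 * T + 1)) * (4 ^ k * (6 * (4 ^ k) ^ 2)) + 4 ^ k * (24 * T + 1) +
      4 ^ k * (6 * (4 ^ k) ^ 2) := by
  have h := valX (2 * k) (24 * T + 1) (6 * (4 ^ k) ^ 2) (ff k q ρ I Q) (ff_ne k q ρ I Q hI hne) (by
      have := (ff_PL k q ρ I Q hQ hT 0).1
      rwa [Polynomial.natDegree_map_eq_of_injective (et_inj (2 * k) 0)] at this) (by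
      intro i t
      have := (ff_PL k q ρ I Q hQ hT t).2 i
      rwa [Polynomial.coeff_map, et_apply] at this) (pf k q ρ I Q) (ff_eval k q ρ I Q)
    (fun t => if t = 0 then N else 0) (by
      intro t _
      split_ifs with h0
      · subst h0
        exact hN
      · rw [pow_zero]
        exact one_dvd _)
  rw [four_two, Finset.sum_ite_eq' (Finset.range (4 ^ k)) 0 (fun _ => N),
    if_pos (Finset.mem_range.2 (by positivity))] at h
  exact h

end Pool.Agent.J4H80.PV
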