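import Pool.Agent.J4H80.PV.Pat

set_option autoImplicit false

/-!
# Linear patterns of the partition function in a class modulo `2 ^ j`, with explicit bounds
-/

namespace Pool.Agent.J4H80.PV

open PowerSeries Pool.Agent.TH693.PP Pool.Agent.H397R2.PP Pool.Agent.TH693.QQ Pool.Agent.J4H80.IG

section

variable (k q ρ : ℕ) (I : Finset ℕ)

/-- the combination of the sections -/
noncomputable def Gs : S := ∑ i ∈ I, X ^ (q - i) * proj (2 ^ (2 * k)) (ρ + i) P

theorem coeff_Gs (hI : ∀ i ∈ I, i < q) (n : ℕ) : coeff (n + q) (Gs k q ρ I) =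
    if n % 2 ^ (2 * k) = ρ % 2 ^ (2 * k) then
      ∑ i ∈ I, (Fintype.card (Nat.Partition (n + i)) : ZMod 2) else 0 := by
  unfold Gs
  rw [map_sum]
  have h1 : ∀ i ∈ I, coeff (n + q) (X ^ (q - i) * proj (2 ^ (2 * k)) (ρ + i) P) =
      if n % 2 ^ (2 * k) = ρ % 2 ^ (2 * k) then (Fintype.card (Nat.Partition (n + i)) : ZMod 2) else 0 := by
    intro i hi
    have hiq := hI i hi
    rw [coeff_X_pow_mul', if_pos (by omega)]
    have e : n + q - (q - i) = n + i := by omega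
    rw [e, QE1.coeff_proj]
    have h2 : (n + i) % 2 ^ (2 * k) = (ρ + i) % 2 ^ (2 * k) ↔ n % 2 ^ (2 * k) = ρ % 2 ^ (2 * k) := by
      constructor
      · intro h
        exact Nat.ModEq.add_right_cancel' i h
      · intro h
        exact Nat.ModEq.add_right i h
    simp only [h2]
    unfold P
    rw [coeff_mk]
  rw [Finset.sum_congr rfl h1]
  split_ifs
  · rfl
  · rw [Finset.sum_const_zero]

theorem exists_Q (hI : ∀ i ∈ I, i < q) (A B : ℕ) (κ : ZMod 2)
    (H : ∀ n, A ≤ n → n < B → n % 2 ^ (2 * k) = ρ % 2 ^ (2 * k) →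
      ∑ i ∈ I, (Fintype.card (Nat.Partition (n + i)) : ZMod 2) = κ) :
    ∃ Q : Polynomial (ZMod 2), Q.natDegree ≤ A + q + 4 ^ k ∧
      (X : S) ^ (B + q) ∣ (1 + X ^ 4 ^ k) * Gs k q ρ I + Polynomial.aeval (X : S) Q := by
  refine ⟨trunc (A + q + 4 ^ k + 1) ((1 + X ^ 4 ^ k) * Gs k q ρ I), ?_, ?_⟩
  · have := natDegree_trunc_lt ((1 + X ^ 4 ^ k) * Gs k q ρ I) (A + q + 4 ^ k)
    omega
  · rw [X_pow_dvd_iff]
    intro e he
    have e1 : Polynomial.aeval (X : S) (trunc (A + q + 4 ^ k + 1) ((1 + X ^ 4 ^ k) * Gs k q ρ I)) =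
        ((trunc (A + q + 4 ^ k + 1) ((1 + X ^ 4 ^ k) * Gs k q ρ I) : Polynomial (ZMod 2)) : S) := by
      rw [← Polynomial.eval₂_C_X_eq_coe]
      rfl
    rw [map_add, e1, Polynomial.coeff_coe, coeff_trunc]
    split_ifs with h1
    · exact CharTwo.add_self_eq_zero _
    · rw [add_zero, add_mul, one_mul, map_add, coeff_X_pow_mul', if_pos (by omega)]
      have hp : 0 < 4 ^ k := by positivity
      obtain ⟨n, rfl⟩ : ∃ n, e = n + 4 ^ k + q := ⟨e - 4 ^ k - q, by omega⟩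
      have e2 : n + 4 ^ k + q - 4 ^ k = n + q := by omega
      rw [e2, coeff_Gs k q ρ I hI, coeff_Gs k q ρ I hI]
      have e3 : (n + 4 ^ k) % 2 ^ (2 * k) = n % 2 ^ (2 * k) := by
        rw [four_two, Nat.add_mod_right]
      rw [e3]
      split_ifs with h2
      · rw [H (n + 4 ^ k) (by omega) (by omega) (by rw [e3, h2]), H n (by omega) (by omega) h2]
        exact CharTwo.add_self_eq_zero _
      · rw [add_zero]

theorem pf_dvd {N : ℕ} (Q : Polynomial (ZMod 2))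
    (h : (X : S) ^ N ∣ (1 + X ^ 4 ^ k) * Gs k q ρ I + Polynomial.aeval (X : S) Q) :
    (X : S) ^ (8 * N) ∣ pf k q ρ I Q 0 := by
  set e : S := expand (2 ^ (2 * k + 3)) (by positivity) E with he
  have h8 : expand 8 (by norm_num) ((1 + X ^ 4 ^ k) * Gs k q ρ I + Polynomial.aeval (X : S) Q) =
      (1 + X ^ (8 * 4 ^ k)) * (∑ i ∈ I, X ^ (8 * (q - i)) *
        expand 8 (by norm_num) (proj (2 ^ (2 * k)) (ρ + i) P)) +
      Polynomial.aeval (X : S) (Polynomial.expand (ZMod 2) 8 Q) := by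
    unfold Gs
    rw [map_add, map_mul, map_add, map_one, map_pow, expand_X, ← pow_mul, map_sum]
    congr 1
    · congr 1
      refine Finset.sum_congr rfl fun i _ => ?_
      rw [map_mul, map_pow, expand_X, ← pow_mul]
    · have h1 : ((expand 8 (by norm_num) : S →ₐ[ZMod 2] S).comp (Polynomial.aeval (X : S))) Q =
          Polynomial.aeval (X : S) (Polynomial.expand (ZMod 2) 8 Q) := by
        rw [Polynomial.expand_aeval]
        have : (expand 8 (by norm_num) : S →ₐ[ZMod 2] S).comp (Polynomial.aeval (X : S)) =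
            Polynomial.aeval ((X : S) ^ 8) := by
          ext1
          rw [AlgHom.comp_apply, Polynomial.aeval_X, Polynomial.aeval_X, expand_X]
        rw [this]
      exact h1
  have h1 := dvd_expand h
  rw [h8] at h1
  set Q8 := Polynomial.aeval (X : S) (Polynomial.expand (ZMod 2) 8 Q) with hQ8
  set Sg := ∑ i ∈ I, (X : S) ^ (8 * (q - i)) * expand 8 (by norm_num) (proj (2 ^ (2 * k)) (ρ + i) P) with hSg
  have hC : ∑ i ∈ I, (X : S) ^ (8 * (q - i)) * U k ((8 * (ρ + i) + ex k : ℕ) : ℤ) 0 =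
      X ^ ex k * e * Sg := by
    rw [hSg, Finset.mul_sum]
    refine Finset.sum_congr rfl fun i _ => ?_
    have h2 : U k ((8 * (ρ + i) + ex k : ℕ) : ℤ) 0 = Cc k (ρ + i) := by
      rw [← Cc_eq]
      unfold U
      congr 1
      ring
    rw [h2]
    unfold Cc
    ring
  have hDb : (Db : S) ^ 4 ^ k = X * (X ^ ex k * e) ^ 3 := by
    have h3 := three_ex k
    have e1 : e = E ^ (8 * 4 ^ k) := by
      rw [he, ← pow_eq_expand]
      congr 1
      rw [pow_add, four_two]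
      ring
    rw [e1, Db_eq, mul_pow, ← pow_mul, ← h3]
    ring
  unfold pf
  rw [hC, hDb]
  obtain ⟨g, hg⟩ := h1
  set a := (1 + (X : S) ^ (8 * 4 ^ k)) * Sg with ha
  have h2z := two_zero
  refine ⟨X * (X ^ ex k * e) ^ 3 * g * (a ^ 2 + a * Q8 + Q8 ^ 2), ?_⟩
  have e5 : (1 + (X : S) ^ (8 * 4 ^ k)) * (X ^ ex k * e * Sg) = (X ^ ex k * e) * a := by
    rw [ha]; ring
  rw [e5]
  have e6 : (X : S) ^ (8 * N) * (X * (X ^ ex k * e) ^ 3 * g * (a ^ 2 + a * Q8 + Q8 ^ 2)) =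
      X * (X ^ ex k * e) ^ 3 * ((X ^ (8 * N) * g) * (a ^ 2 + a * Q8 + Q8 ^ 2)) := by ring
  rw [e6, ← hg]
  generalize (X : S) ^ ex k * e = z
  linear_combination (-X * z ^ 3 * (a ^ 2 * Q8 + a * Q8 ^ 2)) * h2z

/-- explicit bound modulo `4 ^ k` -/
theorem bound_four (hI : ∀ i ∈ I, i < q) (hne : I.Nonempty) (A B : ℕ) (κ : ZMod 2)
    (H : ∀ n, A ≤ n → n < B → n % 2 ^ (2 * k) = ρ % 2 ^ (2 * k) →
      ∑ i ∈ I, (Fintype.card (Nat.Partition (n + i)) : ZMod 2) = κ) :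
    B + q ≤ 304 * (4 ^ k) ^ 4 * (A + q + 4 ^ k) := by
  obtain ⟨Q, hQ, hdvd⟩ := exists_Q k q ρ I hI A B κ H
  have h1 := pf_bound k q ρ I Q hI hne (T := A + q + 4 ^ k) hQ (by omega) (pf_dvd k q ρ I Q hdvd)
  have hp : 0 < 4 ^ k := by positivity
  generalize 4 ^ k = M at *
  set T := A + q + M with hT
  have hT1 : 1 ≤ T := by omega
  have h2 : 16 * (M * (24 * T + 1)) * (M * (6 * M ^ 2)) + M * (24 * T + 1) + M * (6 * M ^ 2) ≤
      8 * (304 * M ^ 4 * T) := by
    have e1 : 16 * (M * (24 * T + 1)) * (M * (6 * M ^ 2)) = 96 * M ^ 4 * (24 * T + 1) := by ring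
    rw [e1]
    have h3 : M ≤ M ^ 4 := Nat.le_self_pow (by norm_num) M
    have h4 : M * M ^ 2 ≤ M ^ 4 := by
      have : M * M ^ 2 = M ^ 3 := by ring
      rw [this]
      exact Nat.pow_le_pow_right hp (by norm_num)
    have h5 : 24 * T + 1 ≤ 25 * T := by omega
    calc 96 * M ^ 4 * (24 * T + 1) + M * (24 * T + 1) + M * (6 * M ^ 2)
        ≤ 96 * M ^ 4 * (25 * T) + M ^ 4 * (25 * T) + 6 * M ^ 4 * T := by
          have a1 : 96 * M ^ 4 * (24 * T + 1) ≤ 96 * M ^ 4 * (25 * T) := Nat.mul_le_mul_left _ h5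
          have a2 : M * (24 * T + 1) ≤ M ^ 4 * (25 * T) := Nat.mul_le_mul h3 h5
          have a3 : M * (6 * M ^ 2) ≤ 6 * M ^ 4 * T := by
            calc M * (6 * M ^ 2) = 6 * (M * M ^ 2) * 1 := by ring
              _ ≤ 6 * M ^ 4 * T := Nat.mul_le_mul (Nat.mul_le_mul_left _ h4) hT1
          omega
      _ = 2431 * (M ^ 4 * T) := by ring
      _ ≤ 8 * (304 * M ^ 4 * T) := by
          have : 8 * (304 * M ^ 4 * T) = 2432 * (M ^ 4 * T) := by ring
          rw [this]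
          exact Nat.mul_le_mul_right _ (by norm_num)
  have h3 := h1.trans h2
  omega

end

end Pool.Agent.J4H80.PV
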