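import Pool.Agent.J4H80.IG.Valence2
import Pool.Agent.J4H80.ZE.ZeroEst3

set_option autoImplicit false

/-!
# The valence inequality for polynomials in `X` with coefficients in the tower
-/

namespace Pool.Agent.J4H80.PV

open PowerSeries Pool.Agent.TH693.PP Pool.Agent.H397R2.PP Pool.Agent.TH693.QQ Pool.Agent.J4H80.IG

theorem mat_of (m : ℕ) {u : ℤ → L} (hu : u ∈ V (m + 2)) :
    ∃ mm : Matrix (Fin (2 ^ m)) (Fin (2 ^ m)) K,
      ML m * Matrix.diagonal (fun t : Fin (2 ^ m) => u ((t : ℕ) : ℤ)) = (mm.map io') * ML m := by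
  classical
  have hl := lev m
  have := hl.fin
  let v : Fin (2 ^ m) → V (m + 2) := fun i => ⟨A (m + 2) (1 + 4 * ((i : ℕ) : ℤ)), hl.mem _⟩
  have hli : LinearIndependent K v := by
    rw [Fintype.linearIndependent_iff]
    intro g hg
    have h1 : Matrix.vecMul (fun i => io' (g i)) (ML m) = 0 := by
      funext t
      have h2 := congrArg (fun x : V (m + 2) => (x : ℤ → L) ((t : ℕ) : ℤ)) hg
      simp only [Subalgebra.coe_zero, Pi.zero_apply] at h2
      rw [Pi.zero_apply, ← h2]
      have h3 : ((∑ i, g i • v i : V (m + 2)) : ℤ → L) = ∑ i, g i • (v i : ℤ → L) := by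
        rw [← Subalgebra.coe_val, map_sum]
        rfl
      rw [h3, Finset.sum_apply]
      unfold Matrix.vecMul dotProduct
      refine Finset.sum_congr rfl fun i _ => ?_
      rw [Pi.smul_apply, Algebra.smul_def, algKL]
      rfl
    have h4 := Matrix.eq_zero_of_vecMul_eq_zero (det_ML_ne m) h1
    intro i
    have h5 := congrFun h4 i
    rw [Pi.zero_apply, map_eq_zero_iff _ io'_inj] at h5
    exact h5
  have hcard : Fintype.card (Fin (2 ^ m)) = Module.finrank K (V (m + 2)) := by
    apply le_antisymm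
    · exact hli.fintype_card_le_finrank
    · rw [Fintype.card_fin]
      have := hl.rk
      rwa [Nat.add_sub_cancel] at this
  have hne : Nonempty (Fin (2 ^ m)) := ⟨⟨0, by positivity⟩⟩
  let b := basisOfLinearIndependentOfCardEqFinrank hli hcard
  have hb : ∀ i, b i = v i := fun i => by
    simp [b]
  let mm : Matrix (Fin (2 ^ m)) (Fin (2 ^ m)) K := fun i j => b.repr (⟨u, hu⟩ * v i) j
  have hmm : ∀ i, (⟨u, hu⟩ * v i : V (m + 2)) = ∑ j, mm i j • v j := by
    intro i
    rw [← b.sum_repr (⟨u, hu⟩ * v i)]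
    refine Finset.sum_congr rfl fun j _ => ?_
    rw [hb]
  have hmat : ML m * Matrix.diagonal (fun t : Fin (2 ^ m) => u ((t : ℕ) : ℤ)) = (mm.map io') * ML m := by
    ext i t
    rw [Matrix.mul_diagonal, Matrix.mul_apply]
    have h2 : ((⟨u, hu⟩ * v i : V (m + 2)) : ℤ → L) ((t : ℕ) : ℤ) =
      ((∑ j, mm i j • v j : V (m + 2)) : ℤ → L) ((t : ℕ) : ℤ) :=
      congrArg (fun x : V (m + 2) => (x : ℤ → L) ((t : ℕ) : ℤ)) (hmm i)
    have h3 : ((∑ j, mm i j • v j : V (m + 2)) : ℤ → L) = ∑ j, mm i j • (v j : ℤ → L) := by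
      rw [← Subalgebra.coe_val, map_sum]
      rfl
    rw [h3, Finset.sum_apply, Subalgebra.coe_mul, Pi.mul_apply, mul_comm] at h2
    refine Eq.trans ?_ (h2.trans ?_)
    · rfl
    · refine Finset.sum_congr rfl fun j _ => ?_
      rw [Pi.smul_apply, Algebra.smul_def, algKL]
      rfl
  exact ⟨mm, hmat⟩

/-- evaluation at `t` -/
noncomputable def et (n : ℕ) (t : ℤ) : V n →+* L :=
  (Pi.evalRingHom (fun _ : ℤ => L) t).comp (V n).val.toRingHom

theorem et_apply (n : ℕ) (t : ℤ) (u : V n) : et n t u = (u : ℤ → L) t := rfl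

/-- the product of the conjugates of a polynomial over the tower has its coefficients in the field
of rational functions -/
theorem poly_norm (m : ℕ) (f : Polynomial (V (m + 2))) :
    ∃ g : Polynomial K, g.map io' = ∏ t : Fin (2 ^ m), f.map (et (m + 2) ((t : ℕ) : ℤ)) := by
  classical
  choose! Φ hΦ using fun u (hu : u ∈ V (m + 2)) => mat_of m hu
  let MM : Matrix (Fin (2 ^ m)) (Fin (2 ^ m)) (Polynomial K) := fun i j =>
    ∑ l ∈ Finset.range (f.natDegree + 1), Polynomial.monomial l (Φ (f.coeff l : ℤ → L) i j)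
  let CL : Matrix (Fin (2 ^ m)) (Fin (2 ^ m)) (Polynomial L) := (ML m).map (Polynomial.C : L →+* _)
  have hf : ∀ t : Fin (2 ^ m), f.map (et (m + 2) ((t : ℕ) : ℤ)) =
      ∑ l ∈ Finset.range (f.natDegree + 1), Polynomial.monomial l ((f.coeff l : ℤ → L) ((t : ℕ) : ℤ)) := by
    intro t
    conv_lhs => rw [f.as_sum_range]
    rw [Polynomial.map_sum]
    refine Finset.sum_congr rfl fun l _ => ?_
    rw [Polynomial.map_monomial, et_apply]
  have hCLa : ∀ i t, CL i t = Polynomial.C (ML m i t) := fun _ _ => rfl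
  have hMMa : ∀ i j, (MM.map (Polynomial.mapRingHom io')) i j =
      ∑ l ∈ Finset.range (f.natDegree + 1), Polynomial.monomial l (io' (Φ (f.coeff l : ℤ → L) i j)) := by
    intro i j
    rw [Matrix.map_apply]
    change Polynomial.map io' (∑ l ∈ Finset.range (f.natDegree + 1),
      Polynomial.monomial l (Φ (f.coeff l : ℤ → L) i j)) = _
    rw [Polynomial.map_sum]
    refine Finset.sum_congr rfl fun l _ => ?_
    rw [Polynomial.map_monomial]
  have hmat : CL * Matrix.diagonal (fun t : Fin (2 ^ m) => f.map (et (m + 2) ((t : ℕ) : ℤ))) =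
      (MM.map (Polynomial.mapRingHom io')) * CL := by
    ext1 i t
    rw [Matrix.mul_diagonal, Matrix.mul_apply, hf, hCLa]
    have hR : ∑ j, (MM.map (Polynomial.mapRingHom io')) i j * CL j t =
        ∑ j, ∑ l ∈ Finset.range (f.natDegree + 1),
          Polynomial.monomial l (io' (Φ (f.coeff l : ℤ → L) i j)) * Polynomial.C (ML m j t) :=
      Finset.sum_congr rfl fun j _ => by rw [hMMa, hCLa, Finset.sum_mul]
    refine Eq.trans ?_ hR.symm
    rw [Finset.mul_sum, Finset.sum_comm]
    refine Finset.sum_congr rfl fun l _ => ?_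
    have h1 := congrFun (congrFun (hΦ (f.coeff l : ℤ → L) (f.coeff l).2) i) t
    rw [Matrix.mul_diagonal, Matrix.mul_apply] at h1
    rw [Polynomial.C_mul_monomial, h1, map_sum]
    refine Finset.sum_congr rfl fun j _ => ?_
    rw [Matrix.map_apply, Polynomial.monomial_mul_C]
  have hdet := congrArg Matrix.det hmat
  rw [Matrix.det_mul, Matrix.det_mul, Matrix.det_diagonal, mul_comm] at hdet
  have hCL : CL.det ≠ 0 := by
    have h1 : CL.det = Polynomial.C (ML m).det := by
      rw [RingHom.map_det]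
      rfl
    rw [h1, Ne, Polynomial.C_eq_zero]
    exact det_ML_ne m
  have hfin := mul_right_cancel₀ hCL hdet
  refine ⟨MM.det, ?_⟩
  rw [hfin, ← Polynomial.coe_mapRingHom, RingHom.map_det]
  rfl

end Pool.Agent.J4H80.PV
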