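import Pool.Agent.J4H80.PV.PolyNorm

set_option autoImplicit false

/-!
# The valence inequality for polynomials in `X` with coefficients in the tower
-/

namespace Pool.Agent.J4H80.PV

open PowerSeries Pool.Agent.TH693.PP Pool.Agent.H397R2.PP Pool.Agent.TH693.QQ Pool.Agent.J4H80.IG
open Pool.Agent.J4H80.ZE (Bd)

/-- polynomials over `L` with weighted coefficients -/
def PL (d w : ℕ) (F : Polynomial L) : Prop := F.natDegree ≤ d ∧ ∀ i, Wt w (F.coeff i)

theorem PL.one : PL 0 0 1 := by
  constructor
  · rw [Polynomial.natDegree_one]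
  · intro i
    rw [Polynomial.coeff_one]
    split_ifs
    · exact Wt.one
    · exact Wt.zero _

theorem PL.mul {d w d' w' : ℕ} {F G : Polynomial L} (hF : PL d w F) (hG : PL d' w' G) :
    PL (d + d') (w + w') (F * G) := by
  constructor
  · exact Polynomial.natDegree_mul_le.trans (Nat.add_le_add hF.1 hG.1)
  · intro i
    rw [Polynomial.coeff_mul]
    exact Wt.sum _ _ fun p _ => (hF.2 _).mul (hG.2 _)

theorem PL.prod {ι : Type*} (I : Finset ι) {d w : ℕ} (f : ι → Polynomial L) (h : ∀ i ∈ I, PL d w (f i)) :
    PL (I.card * d) (I.card * w) (∏ i ∈ I, f i) := by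
  classical
  induction I using Finset.induction_on with
  | empty => rw [Finset.prod_empty, Finset.card_empty, zero_mul, zero_mul]; exact PL.one
  | insert i I hi ih =>
    rw [Finset.prod_insert hi, Finset.card_insert_of_notMem hi, add_mul, add_mul, one_mul, one_mul,
      add_comm, add_comm (I.card * w)]
    exact (h i (Finset.mem_insert_self _ _)).mul (ih fun j hj => h j (Finset.mem_insert_of_mem hj))

theorem et_inj (m : ℕ) (t : ℤ) : Function.Injective (et (m + 2) t) := by
  rw [injective_iff_map_eq_zero]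
  intro u hu
  exact Subtype.ext ((lev m).van _ u.2 t hu)

theorem ev_eq (Q : Polynomial (ZMod 2)) : IG.ev Q = algebraMap S L (evS Q) := rfl

theorem valX (m d w : ℕ) (f : Polynomial (V (m + 2))) (hf : f ≠ 0) (hd : f.natDegree ≤ d)
    (hw : ∀ i t, Wt w ((f.coeff i : ℤ → L) t)) (p : ℤ → S)
    (hp : ∀ t, Polynomial.eval (algebraMap S L X) (f.map (et (m + 2) t)) = algebraMap S L (p t))
    (N : ℕ → ℕ) (hN : ∀ t < 2 ^ m, (X : S) ^ N t ∣ p (t : ℤ)) :
    ∑ t ∈ Finset.range (2 ^ m), N t ≤ 16 * (2 ^ m * d) * (2 ^ m * w) + 2 ^ m * d + 2 ^ m * w := by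
  classical
  obtain ⟨g, hg⟩ := poly_norm m f
  have h1 : PL (2 ^ m * d) (2 ^ m * w) (∏ t : Fin (2 ^ m), f.map (et (m + 2) ((t : ℕ) : ℤ))) := by
    have := PL.prod (Finset.univ : Finset (Fin (2 ^ m))) (d := d) (w := w)
      (fun t => f.map (et (m + 2) ((t : ℕ) : ℤ))) (fun t _ => by
        constructor
        · exact Polynomial.natDegree_map_le.trans hd
        · intro i
          rw [Polynomial.coeff_map, et_apply]
          exact hw _ _)
    rwa [Finset.card_univ, Fintype.card_fin] at this
  rw [← hg] at h1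
  have hQ : ∀ l, ∃ Q : Polynomial (ZMod 2), Q.natDegree ≤ 2 ^ m * w ∧ io' (g.coeff l) = IG.ev Q := by
    intro l
    have := h1.2 l
    rw [Polynomial.coeff_map] at this
    exact poly_of_Wt this
  choose Q hQd hQe using hQ
  let D := 2 ^ m * d
  let R : Polynomial (Polynomial (ZMod 2)) := ∑ l ∈ Finset.range (D + 1),
    Polynomial.C (Polynomial.X ^ l) * (Q l).map Polynomial.C
  have hRB : Bd D (2 ^ m * w) R := by
    refine Bd.sum _ _ fun l hl => ?_
    rw [Finset.mem_range] at hl
    have e1 : Bd l 0 (Polynomial.C (Polynomial.X ^ l) : Polynomial (Polynomial (ZMod 2))) := by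
      constructor
      · exact (Polynomial.natDegree_C _).le
      · intro i
        rw [Polynomial.coeff_C]
        split_ifs
        · rw [Polynomial.natDegree_X_pow]
        · rw [Polynomial.natDegree_zero]; exact Nat.zero_le _
    have e2 : Bd 0 (2 ^ m * w) ((Q l).map Polynomial.C : Polynomial (Polynomial (ZMod 2))) := by
      constructor
      · exact Polynomial.natDegree_map_le.trans (hQd l)
      · intro i
        rw [Polynomial.coeff_map, Polynomial.natDegree_C]
    exact (e1.mul e2).mono (by omega) (by omega)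
  have hgd : g.natDegree ≤ D := by
    have := h1.1
    rwa [Polynomial.natDegree_map_eq_of_injective io'_inj] at this
  have hevR : ZE.ev R = ∏ t ∈ Finset.range (2 ^ m), p (t : ℤ) := by
    apply inj
    have e1 : ZE.ev R = ∑ l ∈ Finset.range (D + 1), (X : S) ^ l * evS (Q l) := by
      change ZE.ev (∑ l ∈ Finset.range (D + 1),
        Polynomial.C (Polynomial.X ^ l) * (Q l).map Polynomial.C) = _
      rw [map_sum]
      refine Finset.sum_congr rfl fun l _ => ?_
      rw [map_mul, ZE.ev_C, map_pow, Polynomial.aeval_X]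
      congr 1
      unfold ZE.ev
      rw [← Polynomial.Bivariate.swap_C, Polynomial.Bivariate.aevalAeval_swap, Polynomial.aevalAeval_C]
      rfl
    rw [e1, map_sum]
    have e2 : Polynomial.eval (algebraMap S L X) (g.map io') =
        ∑ l ∈ Finset.range (D + 1), io' (g.coeff l) * algebraMap S L X ^ l := by
      rw [Polynomial.eval_map, Polynomial.eval₂_eq_sum_range' io' (lt_of_le_of_lt hgd (Nat.lt_succ_self D))]
    have e3 : ∑ l ∈ Finset.range (D + 1), algebraMap S L ((X : S) ^ l * evS (Q l)) =
        Polynomial.eval (algebraMap S L X) (g.map io') := by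
      rw [e2]
      refine Finset.sum_congr rfl fun l _ => ?_
      rw [map_mul, map_pow, hQe, ev_eq, mul_comm]
    rw [e3, hg, Polynomial.eval_prod, Finset.prod_range (fun t : ℕ => p (t : ℤ)), map_prod]
    exact Finset.prod_congr rfl fun t _ => hp _
  have hR0 : R ≠ 0 := by
    intro h0
    have hcoef : ∀ j ≤ D, Q j = 0 := by
      intro j hj
      ext i
      have h2 := congrArg (fun F => (Polynomial.coeff F i).coeff j) h0
      simp only [Polynomial.coeff_zero] at h2
      rw [Polynomial.coeff_zero, ← h2]
      change _ = ((∑ l ∈ Finset.range (D + 1),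
        Polynomial.C (Polynomial.X ^ l) * (Q l).map Polynomial.C).coeff i).coeff j
      rw [Polynomial.finsetSum_coeff, Polynomial.finsetSum_coeff, Finset.sum_eq_single j]
      · rw [Polynomial.coeff_C_mul, Polynomial.coeff_map, mul_comm, Polynomial.coeff_C_mul,
          Polynomial.coeff_X_pow, if_pos rfl, mul_one]
      · intro l _ hl
        rw [Polynomial.coeff_C_mul, Polynomial.coeff_map, mul_comm, Polynomial.coeff_C_mul,
          Polynomial.coeff_X_pow, if_neg (Ne.symm hl), mul_zero]
      · intro hn
        exact absurd (Finset.mem_range.2 (by omega)) hn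
    have hg0 : g = 0 := by
      ext j
      rw [Polynomial.coeff_zero]
      by_cases hj : j ≤ D
      · apply io'_inj
        rw [hQe, hcoef j hj, map_zero, map_zero]
      · exact Polynomial.coeff_eq_zero_of_natDegree_lt (by omega)
    rw [hg0, Polynomial.map_zero] at hg
    obtain ⟨t, _, ht⟩ := Finset.prod_eq_zero_iff.1 hg.symm
    exact hf ((Polynomial.map_eq_zero_iff (et_inj m _)).1 ht)
  have h5 : (X : S) ^ (∑ t ∈ Finset.range (2 ^ m), N t) ∣ ZE.ev R := by
    rw [hevR, ← Finset.prod_pow_eq_pow_sum]
    exact Finset.prod_dvd_prod_of_dvd _ _ fun t ht => hN t (Finset.mem_range.1 ht)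
  exact ZE.zero_est hR0 hRB h5

end Pool.Agent.J4H80.PV
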